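import Mathlib
import Pool.Agent.H711R2.Tr7

set_option autoImplicit false
open Filter Topology
open scoped ComplexOrder InnerProductSpace

namespace Pool.Agent.H762R2.ISP
open Pool.H711R2 Pool.H711R2.IsNormalTrace

variable {H : Type} [NormedAddCommGroup H] [InnerProductSpace ℂ H] [CompleteSpace H]
variable {M : VonNeumannAlgebra H} {τ : (H →L[ℂ] H) →ₗ[ℂ] ℂ}

lemma papp {p : H →L[ℂ] H} (hp : IsStarProjection p) (v : H) : p (p v) = p v := by
  have := congrArg (fun z : H →L[ℂ] H => z v) hp.isIdempotentElem.eq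
  simpa using this

lemma mul_eq_of_fix {p y : H →L[ℂ] H} (h : ∀ v, p (y v) = y v) : p * y = y := by
  ext v; simpa using h v

lemma le_fix {p q : H →L[ℂ] H} (hp : IsStarProjection p) (hq : IsStarProjection q)
    (h : ∀ v, p v = v → q v = v) : q * p = p ∧ p * q = p := by
  have h1 : q * p = p := mul_eq_of_fix (fun v => h _ (papp hp v))
  refine ⟨h1, ?_⟩
  have := congrArg star h1
  rwa [star_mul, hp.isSelfAdjoint.star_eq, hq.isSelfAdjoint.star_eq] at this

section tr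
variable (hτ : IsNormalTrace M τ)
include hτ

lemma n2_sub_proj {p q : H →L[ℂ] H} (hp : p ∈ M) (hq : q ∈ M) (hP : IsStarProjection p)
    (hQ : IsStarProjection q) :
    n2 τ (p - q) = tr τ p - tr τ q + 2 * n2 τ ((1 - p) * q) := by
  have e1 : star (p - q) * (p - q) = p + q - p * q - q * p := by
    rw [star_sub, hP.isSelfAdjoint.star_eq, hQ.isSelfAdjoint.star_eq, sub_mul, mul_sub, mul_sub,
      hP.isIdempotentElem.eq, hQ.isIdempotentElem.eq]; abel
  have e2 : star ((1 - p) * q) * ((1 - p) * q) = q - q * (p * q) := by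
    rw [star_mul, hP.one_sub.isSelfAdjoint.star_eq, hQ.isSelfAdjoint.star_eq]
    calc q * (1 - p) * ((1 - p) * q) = q * ((1 - p) * (1 - p)) * q := by noncomm_ring
      _ = q * (1 - p) * q := by rw [hP.one_sub.isIdempotentElem.eq]
      _ = q * q - q * (p * q) := by noncomm_ring
      _ = _ := by rw [hQ.isIdempotentElem.eq]
  have e3 : tr τ (q * (p * q)) = tr τ (p * q) := by
    unfold tr
    rw [hτ.trace q hq (p * q) (vn_mul hp hq), mul_assoc, hQ.isIdempotentElem.eq]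
  have e4 : tr τ (q * p) = tr τ (p * q) := by
    unfold tr; rw [hτ.trace q hq p hp]
  unfold n2
  rw [e1, e2, tr_sub, tr_sub, tr_add, tr_sub, e3, e4]; ring

/-- trace of a projection on which `z` is large -/
lemma tr_large {z g : H →L[ℂ] H} (hz : z ∈ M) (hg : g ∈ M) (hG : IsStarProjection g)
    (h : ∀ v, g v = v → (1 / 2) * ‖v‖ ≤ ‖z v‖) : tr τ g ≤ 9 * n2 τ z := by
  have h1 : tr τ g + tr τ (ev z (1 / 3)) ≤ 1 := by
    apply hτ.tr_disjoint hg (ev_mem hz _) hG (ev_isStar _ _)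
    intro v h2 h3
    have h4 := h v h2
    have h5 := low (by norm_num : (0:ℝ) ≤ 1 / 3) h3
    have h6 : ‖v‖ ≤ 0 := by linarith
    exact norm_le_zero_iff.mp h6
  have h2 := hτ.cheb hz (vn_one M) (1 / 3)
  rw [mul_one, mul_one, n2_proj (ev_isStar z (1/3)).one_sub, tr_sub, hτ.tr_one] at h2
  linarith

/-- the range projection of `g * X` -/
lemma range_proj {y P : H →L[ℂ] H} (hy : y ∈ M) (hP : P ∈ M) (hPp : IsStarProjection P)
    (h : y * P = y) : ∃ X ∈ M, IsStarProjection X ∧ (1 - X) * y = 0 ∧ tr τ X ≤ tr τ P := by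
  refine ⟨1 - kp (star y), vn_sub (vn_one M) (kp_mem (vn_star hy)), (kp_isStar _).one_sub, ?_, ?_⟩
  · have h1 : star y * kp (star y) = 0 := mul_kp _
    have h2 := congrArg star h1
    rw [star_mul, star_star, kp_star, star_zero] at h2
    rw [sub_sub_cancel]; exact h2
  · have h1 : tr τ (1 - P) ≤ tr τ (kp y) := by
      apply hτ.tr_mono (vn_sub (vn_one M) hP) (kp_mem hy) hPp.one_sub (kp_isStar _)
      intro v hv
      apply kp_apply_of_ker
      have h2 : P v = 0 := by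
        have : (1 - P) v = v - P v := by simp
        rw [this] at hv
        have := sub_eq_self.mp hv
        exact this
      rw [← h]; simp [h2]
    rw [tr_sub, hτ.tr_one, ← hτ.trace_kp hy]
    rw [tr_sub, hτ.tr_one] at h1
    linarith

/-- control of the projection onto `g W` -/
lemma gauge_proj (faith : ∀ x ∈ M, τ (star x * x) = 0 → x = 0) {W g gi V z : H →L[ℂ] H}
    (hW : W ∈ M) (hWp : IsStarProjection W) (hg : g ∈ M) (hgi : gi ∈ M) (hgs : star g = g)
    (hgig : gi * g = 1) (hV : V ∈ M) (hVp : IsStarProjection V)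
    (hVW : V * (g * W) = g * W) (htr : tr τ V = tr τ W) {Λ : ℝ} (hΛ : 0 < Λ) (hΛg : ‖gi‖ ≤ Λ)
    (hz : z ∈ M) : n2 τ (z * V) ≤ 4 * Λ ^ 2 * n2 τ (z * (g * W)) := by
  set b : ℝ := 1 / (2 * Λ) with hb
  have hb0 : 0 < b := by positivity
  set x : H →L[ℂ] H := W * g with hx
  have hxM : x ∈ M := vn_mul hW hg
  have hsx : star x = g * W := by rw [hx, star_mul, hgs, hWp.isSelfAdjoint.star_eq]
  -- upper bound of the trace of `ev x b`
  have h1 : tr τ (ev x b) ≤ 1 - tr τ W := by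
    obtain ⟨q, hq, hQ, hq1, hq2⟩ := hτ.qn_star hxM (ev_mem hxM b)
      (ev_isStar x b) hb0.le (norm_mul_ev_le x hb0.le)
    have h2 := hτ.tr_disjoint hq hW hQ hWp (by
      intro v h3 h4
      have h5 : ‖(star x * q) v‖ ≤ b * ‖v‖ := (ContinuousLinearMap.le_opNorm _ _).trans (by gcongr)
      have h6 : (star x * q) v = g v := by
        rw [mul_apply_eq_comp, h3, hsx, mul_apply_eq_comp, h4]
      rw [h6] at h5
      have h7 : v = gi (g v) := by
        have := congrArg (fun z : H →L[ℂ] H => z v) hgig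
        simpa using this.symm
      have h8 : ‖v‖ ≤ Λ * ‖g v‖ := by
        calc ‖v‖ = ‖gi (g v)‖ := by rw [← h7]
          _ ≤ ‖gi‖ * ‖g v‖ := ContinuousLinearMap.le_opNorm _ _
          _ ≤ Λ * ‖g v‖ := by gcongr
      have h9 : Λ * (b * ‖v‖) = ‖v‖ / 2 := by rw [hb]; field_simp
      have h10 : ‖v‖ ≤ ‖v‖ / 2 := by
        calc ‖v‖ ≤ Λ * ‖g v‖ := h8
          _ ≤ Λ * (b * ‖v‖) := by gcongr
          _ = _ := h9
      exact norm_le_zero_iff.mp (by linarith))
    linarith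
  -- `1 - V ≤ ev x b`
  have hxV : x * V = x := by
    have := congrArg star hVW
    rw [star_mul, ← hsx, star_star, hVp.isSelfAdjoint.star_eq] at this
    exact this
  have hsub : ∀ v, (1 - V) v = v → ev x b v = v := by
    intro v hv
    apply ev_ker hb0
    have h2 : V v = 0 := by
      have : (1 - V) v = v - V v := by simp
      rw [this] at hv
      exact sub_eq_self.mp hv
    rw [← hxV]; simp [h2]
  have hle := le_fix hVp.one_sub (ev_isStar x b) hsub
  have hD : IsStarProjection (ev x b - (1 - V)) := diff_proj hVp.one_sub (ev_isStar x b) hsub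
  have hDM : ev x b - (1 - V) ∈ M := vn_sub (ev_mem hxM b) (vn_sub (vn_one M) hV)
  have hD0 : ev x b - (1 - V) = 0 := by
    apply faith _ hDM
    have h3 : star (ev x b - (1 - V)) * (ev x b - (1 - V)) = ev x b - (1 - V) := by
      rw [hD.isSelfAdjoint.star_eq, hD.isIdempotentElem.eq]
    have h4 := hτ.pos _ hDM
    have h5 : tr τ (ev x b - (1 - V)) ≤ 0 := by
      rw [tr_sub, tr_sub, hτ.tr_one]; linarith
    rw [h3] at h4 ⊢
    rw [Complex.le_def] at h4
    apply Complex.ext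
    · have := h4.1
      simp only [Complex.zero_re] at this ⊢
      exact le_antisymm h5 this
    · simpa using h4.2.symm
  have hEV : 1 - ev x b = V := by
    have := sub_eq_zero.mp hD0
    rw [this]; abel
  have h5 := hτ.cheb hxM (vn_star hz) b
  rw [hEV] at h5
  have h6 : n2 τ (V * star z) = n2 τ (z * V) := by
    rw [← hτ.n2_star (vn_mul hz hV), star_mul, hVp.isSelfAdjoint.star_eq]
  have h7 : n2 τ (x * star z) = n2 τ (z * (g * W)) := by
    rw [← hτ.n2_star (vn_mul hz (vn_mul hg hW)), star_mul, ← hsx, star_star]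
  rw [h6, h7] at h5
  have h8 : b ^ 2 * (4 * Λ ^ 2) = 1 := by rw [hb]; field_simp; norm_num
  have h9 : 0 ≤ 4 * Λ ^ 2 := by positivity
  calc n2 τ (z * V) = (4 * Λ ^ 2) * (b ^ 2 * n2 τ (z * V)) := by
        rw [← mul_assoc, mul_comm (4 * Λ ^ 2), h8, one_mul]
    _ ≤ (4 * Λ ^ 2) * n2 τ (z * (g * W)) := by gcongr

end tr

/-- The data of the semicontinuity step: `f0`, `f3` blocks, `v` the block shift, `S` the old
similarity (commuting with the blocks), `K` almost invariant, `K0` the projection of the previous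
level. -/
structure Dat (M : VonNeumannAlgebra H) (τ : (H →L[ℂ] H) →ₗ[ℂ] ℂ)
    (f0 f3 S Si v K K0 : H →L[ℂ] H) (eta : ℝ) : Prop where
  hτ : IsNormalTrace M τ
  faith : ∀ x ∈ M, τ (star x * x) = 0 → x = 0
  f0M : f0 ∈ M
  f3M : f3 ∈ M
  SM : S ∈ M
  SiM : Si ∈ M
  vM : v ∈ M
  KM : K ∈ M
  K0M : K0 ∈ M
  f0p : IsStarProjection f0
  f3p : IsStarProjection f3
  Kp : IsStarProjection K
  K0p : IsStarProjection K0
  SSi : S * Si = 1
  SiS : Si * S = 1
  Sf0 : S * f0 = f0 * S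
  Sf3 : S * f3 = f3 * S
  v0 : star v * v = f0
  v3 : v * star v = f3
  K0f0 : K0 * f0 = f0 * K0
  K0f3 : K0 * f3 = f3 * K0
  tr03 : tr τ (K0 * f3) ≤ tr τ (K0 * f0)
  near : n2 τ (K - K0) ≤ eta ^ 2

/-- the contraction `x` of the block `f0` is good: `K` is almost invariant under `S v x S⁻¹` -/
def Good (M : VonNeumannAlgebra H) (τ : (H →L[ℂ] H) →ₗ[ℂ] ℂ)
    (f0 S Si v K : H →L[ℂ] H) (eps : ℝ) (x : H →L[ℂ] H) : Prop :=
  x ∈ M ∧ f0 * x = x ∧ x * f0 = x ∧ ‖x‖ ≤ 1 ∧ n2 τ ((1 - K) * (S * v * x * Si) * K) ≤ eps ^ 2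

section main
variable {f0 f3 S Si v K K0 : H →L[ℂ] H} {eta : ℝ}

lemma Dat.Sif0 (D : Dat M τ f0 f3 S Si v K K0 eta) : Si * f0 = f0 * Si := by
  calc Si * f0 = Si * f0 * (S * Si) := by rw [D.SSi, mul_one]
    _ = Si * (f0 * S) * Si := by noncomm_ring
    _ = Si * (S * f0) * Si := by rw [D.Sf0]
    _ = (Si * S) * f0 * Si := by noncomm_ring
    _ = _ := by rw [D.SiS, one_mul]

/-- the spectral part `W` of `S⁻¹ f0 K` -/
lemma Dat.W_exists (D : Dat M τ f0 f3 S Si v K K0 eta) {β : ℝ} (hβ : 0 < β)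
    (hβS : β * ‖S‖ ≤ 1 / 2) :
    ∃ W ∈ M, IsStarProjection W ∧ f0 * W = W ∧ tr τ (K0 * f0) - 9 * eta ^ 2 ≤ tr τ W ∧
      (∀ z ∈ M, β ^ 2 * n2 τ (z * W) ≤ n2 τ (z * (Si * f0 * K))) ∧
      ‖(1 - W) * (Si * f0 * K)‖ ≤ β := by
  have hτ := D.hτ
  set A : H →L[ℂ] H := Si * f0 * K with hA
  have hAM : A ∈ M := vn_mul (vn_mul D.SiM D.f0M) D.KM
  have hsA : star A = K * (f0 * star Si) := by
    rw [hA, star_mul, star_mul, D.Kp.isSelfAdjoint.star_eq, D.f0p.isSelfAdjoint.star_eq]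
  set e := ev (star A) β with he
  have heM : e ∈ M := ev_mem (vn_star hAM) β
  have hep : IsStarProjection e := ev_isStar _ _
  refine ⟨1 - e, vn_sub (vn_one M) heM, hep.one_sub, ?_, ?_, ?_, ?_⟩
  · -- `f0 W = W`
    have h1 : ∀ u, f0 u = 0 → e u = u := by
      intro u hu
      apply ev_ker hβ
      have h2 : f0 * star Si = star Si * f0 := by
        have := congrArg star D.Sif0
        rw [star_mul, star_mul, D.f0p.isSelfAdjoint.star_eq] at this
        exact this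
      rw [hsA, h2]
      simp [hu]
    have h2 : e * (1 - f0) = 1 - f0 := by
      ext u
      have h3 : f0 ((1 - f0) u) = 0 := by
        simp [papp D.f0p u]
      simpa using h1 _ h3
    have h3 : (1 - f0) * e = 1 - f0 := by
      have := congrArg star h2
      rwa [star_mul, D.f0p.one_sub.isSelfAdjoint.star_eq, hep.isSelfAdjoint.star_eq] at this
    have h4 : (1 - f0) * (1 - e) = 0 := by rw [mul_sub, mul_one, h3, sub_self]
    have h5 : (1 - e) - f0 * (1 - e) = 0 := by rw [← h4]; noncomm_ring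
    exact (sub_eq_zero.mp h5).symm
  · -- the trace
    obtain ⟨q, hq, hQ, hq1, hq2⟩ := hτ.qn_star (vn_star hAM) heM hep hβ.le
      (norm_mul_ev_le (star A) hβ.le)
    rw [star_star] at hq2
    have hp0 : IsStarProjection (K0 * f0) := by
      refine ⟨?_, ?_⟩
      · show K0 * f0 * (K0 * f0) = K0 * f0
        calc K0 * f0 * (K0 * f0) = K0 * (f0 * K0) * f0 := by noncomm_ring
          _ = K0 * (K0 * f0) * f0 := by rw [D.K0f0]
          _ = (K0 * K0) * (f0 * f0) := by noncomm_ring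
          _ = _ := by rw [D.K0p.isIdempotentElem.eq, D.f0p.isIdempotentElem.eq]
      · show star (K0 * f0) = K0 * f0
        rw [star_mul, D.f0p.isSelfAdjoint.star_eq, D.K0p.isSelfAdjoint.star_eq, D.K0f0]
    obtain ⟨g, hg, hG, hg1, hg2, hg3⟩ := hτ.exists_inf hq (vn_mul D.K0M D.f0M) hQ hp0
    have hz : f0 * (K - K0) ∈ M := vn_mul D.f0M (vn_sub D.KM D.K0M)
    have h1 : tr τ g ≤ 9 * n2 τ (f0 * (K - K0)) := by
      apply tr_large hτ hz hg hG
      intro u hu
      have e1 := hg1 u hu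
      have e2 := hg2 u hu
      have e3 : f0 (K0 u) = u := by
        have : (f0 * K0) u = u := by rw [← D.K0f0]; exact e2
        simpa using this
      have e4 : ‖A u‖ ≤ β * ‖u‖ := by
        have : (A * q) u = A u := by rw [mul_apply_eq_comp, e1]
        rw [← this]
        exact (ContinuousLinearMap.le_opNorm _ _).trans (by gcongr)
      have e5 : f0 (K u) = S (A u) := by
        have : S * A = f0 * K := by
          rw [hA]
          calc S * (Si * f0 * K) = (S * Si) * f0 * K := by noncomm_ring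
            _ = _ := by rw [D.SSi, one_mul]
        have := congrArg (fun z : H →L[ℂ] H => z u) this
        simpa using this.symm
      have e6 : ‖f0 (K u)‖ ≤ 1 / 2 * ‖u‖ := by
        rw [e5]
        calc ‖S (A u)‖ ≤ ‖S‖ * ‖A u‖ := ContinuousLinearMap.le_opNorm _ _
          _ ≤ ‖S‖ * (β * ‖u‖) := by gcongr
          _ = (β * ‖S‖) * ‖u‖ := by ring
          _ ≤ 1 / 2 * ‖u‖ := by gcongr
      have e7 : (f0 * (K - K0)) u = f0 (K u) - u := by
        simp only [mul_apply_eq_comp, sub_apply, map_sub, e3]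
      rw [e7]
      have e8 : ‖u‖ ≤ ‖f0 (K u) - u‖ + ‖f0 (K u)‖ := by
        have : u = f0 (K u) - (f0 (K u) - u) := by abel
        calc ‖u‖ = ‖f0 (K u) - (f0 (K u) - u)‖ := by rw [← this]
          _ ≤ ‖f0 (K u)‖ + ‖f0 (K u) - u‖ := norm_sub_le _ _
          _ = _ := by ring
      linarith
    have h2 : n2 τ (f0 * (K - K0)) ≤ eta ^ 2 := by
      have h3 := hτ.n2_mul_left D.f0M (vn_sub D.KM D.K0M)
      have h4 := hτ.n2_nonneg (vn_sub D.KM D.K0M)
      have h5 : ‖f0‖ ^ 2 ≤ 1 := by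
        have := norm_proj_le D.f0p
        have h0 := norm_nonneg f0
        nlinarith
      have h6 := D.near
      nlinarith
    rw [tr_sub, hτ.tr_one]
    linarith
  · intro z hz
    have h1 := hτ.cheb (vn_star hAM) (vn_star hz) β
    have h2 : n2 τ ((1 - e) * star z) = n2 τ (z * (1 - e)) := by
      rw [← hτ.n2_star (vn_mul hz (vn_sub (vn_one M) heM)), star_mul,
        hep.one_sub.isSelfAdjoint.star_eq]
    have h3 : n2 τ (star A * star z) = n2 τ (z * A) := by
      have h4 : star (z * A) = star A * star z := star_mul z A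
      rw [← h4, hτ.n2_star (vn_mul hz hAM)]
    rw [← he, h2, h3] at h1
    exact h1
  · rw [sub_sub_cancel, ← norm_star, star_mul, hep.isSelfAdjoint.star_eq]
    exact norm_mul_ev_le (star A) hβ.le

/-- the upper block: a projection `P3 ≥ 1 - f3` such that `K` is controlled off `P3` -/
lemma Dat.P3_exists (D : Dat M τ f0 f3 S Si v K K0 eta) :
    ∃ P ∈ M, IsStarProjection P ∧ (1 - f3) * P = 1 - f3 ∧
      tr τ P - tr τ (1 - f3) ≤ tr τ (K0 * f3) + 9 * eta ^ 2 ∧
      (∀ y ∈ M, f3 * y = y → n2 τ ((1 - P) * y) ≤ 4 * n2 τ ((1 - K) * y)) := by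
  have hτ := D.hτ
  set x : H →L[ℂ] H := (1 - K) * f3 with hx
  have hxM : x ∈ M := vn_mul (vn_sub (vn_one M) D.KM) D.f3M
  set P := ev x (1 / 2) with hP
  have hPM : P ∈ M := ev_mem hxM _
  have hPp : IsStarProjection P := ev_isStar _ _
  refine ⟨P, hPM, hPp, ?_, ?_, ?_⟩
  · have h1 : P * (1 - f3) = 1 - f3 := by
      ext u
      have h3 : x ((1 - f3) u) = 0 := by
        rw [hx]; simp [papp D.f3p u]
      rw [mul_apply_eq_comp]
      exact ev_ker (by norm_num : (0:ℝ) < 1 / 2) h3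
    have := congrArg star h1
    rwa [star_mul, D.f3p.one_sub.isSelfAdjoint.star_eq, hPp.isSelfAdjoint.star_eq] at this
  · have hp0 : IsStarProjection (f3 * (1 - K0)) := by
      have hc : (1 - K0) * f3 = f3 * (1 - K0) := by
        rw [sub_mul, mul_sub, D.K0f3, one_mul, mul_one]
      refine ⟨?_, ?_⟩
      · show f3 * (1 - K0) * (f3 * (1 - K0)) = f3 * (1 - K0)
        calc f3 * (1 - K0) * (f3 * (1 - K0)) = f3 * ((1 - K0) * f3) * (1 - K0) := by noncomm_ring
          _ = f3 * (f3 * (1 - K0)) * (1 - K0) := by rw [hc]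
          _ = (f3 * f3) * ((1 - K0) * (1 - K0)) := by noncomm_ring
          _ = _ := by rw [D.K0p.one_sub.isIdempotentElem.eq, D.f3p.isIdempotentElem.eq]
      · show star (f3 * (1 - K0)) = f3 * (1 - K0)
        rw [star_mul, D.f3p.isSelfAdjoint.star_eq, D.K0p.one_sub.isSelfAdjoint.star_eq, hc]
    have hpM : f3 * (1 - K0) ∈ M := vn_mul D.f3M (vn_sub (vn_one M) D.K0M)
    obtain ⟨g, hg, hG, hg1, hg2, hg3⟩ := hτ.exists_inf hPM hpM hPp hp0
    have hz : K - K0 ∈ M := vn_sub D.KM D.K0M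
    have h1 : tr τ g ≤ 9 * n2 τ (K - K0) := by
      apply tr_large hτ hz hg hG
      intro u hu
      have e1 := hg1 u hu
      have e2 := hg2 u hu
      have e3 : f3 u = u := by
        rw [← e2]
        simp only [mul_apply_eq_comp]
        exact papp D.f3p _
      have e4 : K0 u = 0 := by
        have hc : f3 * (1 - K0) = (1 - K0) * f3 := by
          rw [sub_mul, mul_sub, D.K0f3, one_mul, mul_one]
        have : (1 - K0) u = u := by
          have h5 := e2
          rw [hc] at h5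
          simpa [e3] using h5
        have h6 : (1 - K0) u = u - K0 u := by simp
        rw [h6] at this
        exact sub_eq_self.mp this
      have e5 : ‖(1 - K) u‖ ≤ 1 / 2 * ‖u‖ := by
        have h5 := low (by norm_num : (0:ℝ) ≤ 1 / 2) e1
        have h6 : x u = (1 - K) u := by rw [hx]; simp [e3]
        rwa [h6] at h5
      have e6 : (K - K0) u = K u := by simp [e4]
      rw [e6]
      have e7 : (1 - K) u = u - K u := by simp
      rw [e7] at e5
      have e8 : ‖u‖ ≤ ‖u - K u‖ + ‖K u‖ := by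
        have : u = (u - K u) + K u := by abel
        calc ‖u‖ = ‖(u - K u) + K u‖ := by rw [← this]
          _ ≤ _ := norm_add_le _ _
      linarith
    have h2 := D.near
    have h3 : tr τ (f3 * (1 - K0)) = tr τ f3 - tr τ (K0 * f3) := by
      rw [mul_sub, mul_one, tr_sub, D.K0f3]
    rw [tr_sub, hτ.tr_one]
    linarith
  · intro y hy hfy
    have h1 := hτ.cheb hxM hy (1 / 2)
    have h2 : x * y = (1 - K) * y := by rw [hx, mul_assoc, hfy]
    rw [← hP, h2] at h1
    linarith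

set_option maxHeartbeats 2000000 in
/-- everything together -/
theorem K2 (D : Dat M τ f0 f3 S Si v K K0 eta) {β eps : ℝ} (hβ : 0 < β)
    (hβS : β * ‖S‖ ≤ 1 / 2) (h0 : Good M τ f0 S Si v K eps f0) :
    ∃ W ∈ M, IsStarProjection W ∧ f0 * W = W ∧
      tr τ (K0 * f0) - 9 * eta ^ 2 ≤ tr τ W ∧
      tr τ W ≤ tr τ (K0 * f0) + 9 * eta ^ 2 + 4 * ‖Si‖ ^ 2 * β⁻¹ ^ 2 * eps ^ 2 ∧
      (∀ Λ : ℝ, 0 < Λ → ∀ g ∈ M, ∀ gi ∈ M, ∀ V ∈ M, star g = g → g * gi = 1 → gi * g = 1 →
        ‖g‖ ≤ Λ → ‖gi‖ ≤ Λ → IsStarProjection V → V * (g * W) = g * W → tr τ V = tr τ W →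
        ∀ x, Good M τ f0 S Si v K eps x → x * g = g * x →
          n2 τ ((1 - V) * x * V) ≤
            36 * eta ^ 2 + 96 * Λ ^ 4 * (‖Si‖ ^ 2 * β⁻¹ ^ 2 * eps ^ 2)) ∧
      (∀ Y ∈ M, IsStarProjection Y → Y * (S * W) = S * W → tr τ Y = tr τ W →
        n2 τ (Y - K0 * f0) ≤ 13 * eta ^ 2 + 4 * ‖Si‖ ^ 2 * β⁻¹ ^ 2 * eps ^ 2
          + 4 * ‖S‖ ^ 2 * β ^ 2) := by
  have hτ := D.hτ
  obtain ⟨W, hW, hWp, hfW, hWtr, hWn, hWo⟩ := D.W_exists hβ hβS
  obtain ⟨P, hP, hPp, hPf, hPtr, hPn⟩ := D.P3_exists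
  set t2 : ℝ := 4 * ‖Si‖ ^ 2 * β⁻¹ ^ 2 * eps ^ 2 with ht2
  have hWf : W * f0 = W := by
    have := congrArg star hfW
    rwa [star_mul, hWp.isSelfAdjoint.star_eq, D.f0p.isSelfAdjoint.star_eq] at this
  have hvs : star v ∈ M := vn_star D.vM
  -- `Z = P - (1 - f3)`
  set Z : H →L[ℂ] H := P - (1 - f3) with hZ
  have hPf' : P * (1 - f3) = 1 - f3 := by
    have := congrArg star hPf
    rwa [star_mul, D.f3p.one_sub.isSelfAdjoint.star_eq, hPp.isSelfAdjoint.star_eq] at this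
  have hZp : IsStarProjection Z := by
    refine ⟨?_, hPp.isSelfAdjoint.sub D.f3p.one_sub.isSelfAdjoint⟩
    show Z * Z = Z
    have hq := D.f3p.one_sub.isIdempotentElem.eq
    rw [hZ]
    generalize (1 : H →L[ℂ] H) - f3 = q at hq hPf hPf' ⊢
    have e0 : (P - q) * (P - q) = P * P - P * q - q * P + q * q := by noncomm_ring
    rw [e0, hPp.isIdempotentElem.eq, hPf, hPf', hq]; abel
  have hZM : Z ∈ M := vn_sub hP (vn_sub (vn_one M) D.f3M)
  -- `X`
  set y0 : H →L[ℂ] H := star v * Si * Z with hy0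
  have hy0M : y0 ∈ M := vn_mul (vn_mul hvs D.SiM) hZM
  obtain ⟨X, hX, hXp, hX0, hXtr⟩ := range_proj hτ hy0M hZM hZp
    (by rw [hy0, mul_assoc, hZp.isIdempotentElem.eq])
  have hXtr' : tr τ X ≤ tr τ (K0 * f0) + 9 * eta ^ 2 := by
    have h1 : tr τ Z ≤ tr τ (K0 * f3) + 9 * eta ^ 2 := by rw [hZ, tr_sub]; exact hPtr
    have h2 := D.tr03
    linarith
  have h1X : (1 : H →L[ℂ] H) - X ∈ M := vn_sub (vn_one M) hX
  have h1K : (1 : H →L[ℂ] H) - K ∈ M := vn_sub (vn_one M) D.KM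
  -- `f3 S v = S v`
  have hf3v : f3 * v = v := by
    have h1 : (v - f3 * v) = 0 := by
      have h2 : star (v - f3 * v) * (v - f3 * v) = 0 := by
        rw [star_sub, star_mul, D.f3p.isSelfAdjoint.star_eq]
        have e1 : (star v - star v * f3) * (v - f3 * v) =
            star v * v - star v * f3 * v - star v * f3 * v + star v * (f3 * f3) * v := by
          noncomm_ring
        rw [e1, D.f3p.isIdempotentElem.eq]
        have e2 : star v * f3 * v = star v * v := by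
          rw [← D.v3]
          calc star v * (v * star v) * v = (star v * v) * (star v * v) := by noncomm_ring
            _ = star v * v := by rw [D.v0, D.f0p.isIdempotentElem.eq]
        rw [e2]; abel
      exact CStarRing.star_mul_self_eq_zero_iff _ |>.mp h2
    exact (sub_eq_zero.mp h1).symm
  -- main estimate for good `x`
  have key : ∀ x, Good M τ f0 S Si v K eps x → n2 τ ((1 - X) * x * W) ≤ t2 := by
    intro x hx
    obtain ⟨hxM, hfx, hxf, hx1, hxe⟩ := hx
    set y2 : H →L[ℂ] H := S * v * x * W with hy2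
    have hy2M : y2 ∈ M := vn_mul (vn_mul (vn_mul D.SM D.vM) hxM) hW
    have hf3y : f3 * y2 = y2 := by
      rw [hy2]
      calc f3 * (S * v * x * W) = (f3 * S) * v * x * W := by noncomm_ring
        _ = (S * f3) * v * x * W := by rw [D.Sf3]
        _ = S * (f3 * v) * x * W := by noncomm_ring
        _ = _ := by rw [hf3v]
    have e1 : x * W = star v * Si * y2 := by
      rw [hy2]
      calc x * W = (f0 * x) * W := by rw [hfx]
        _ = (star v * v) * x * W := by rw [D.v0]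
        _ = star v * (Si * S) * v * x * W := by rw [D.SiS]; noncomm_ring
        _ = _ := by noncomm_ring
    have e2 : y2 = Z * y2 + (1 - P) * y2 := by
      rw [hZ]
      have : (P - (1 - f3)) * y2 + (1 - P) * y2 = f3 * y2 := by noncomm_ring
      rw [this, hf3y]
    have e3 : (1 - X) * x * W = ((1 - X) * star v * Si) * ((1 - P) * y2) := by
      rw [mul_assoc, e1]
      conv_lhs => rw [e2]
      have : (1 - X) * (star v * Si * (Z * y2 + (1 - P) * y2)) =
          ((1 - X) * y0) * y2 + ((1 - X) * star v * Si) * ((1 - P) * y2) := by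
        rw [hy0]; noncomm_ring
      rw [this, hX0, zero_mul, zero_add]
    have n1 : ‖(1 - X) * star v * Si‖ ≤ ‖Si‖ := by
      have a1 : ‖(1 : H →L[ℂ] H) - X‖ ≤ 1 := norm_proj_le hXp.one_sub
      have a2 : ‖star v‖ ≤ 1 := by
        rw [norm_star]
        have : ‖v‖ * ‖v‖ ≤ 1 := by
          rw [← CStarRing.norm_star_mul_self, D.v0]; exact norm_proj_le D.f0p
        nlinarith [norm_nonneg v]
      calc ‖(1 - X) * star v * Si‖ ≤ ‖(1 - X) * star v‖ * ‖Si‖ := norm_mul_le _ _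
        _ ≤ (‖(1 : H →L[ℂ] H) - X‖ * ‖star v‖) * ‖Si‖ := by gcongr; exact norm_mul_le _ _
        _ ≤ (1 * 1) * ‖Si‖ := by gcongr
        _ = ‖Si‖ := by ring
    have n2' : n2 τ ((1 - K) * (S * v * x) * W) * β ^ 2 ≤ eps ^ 2 := by
      have a1 := hWn ((1 - K) * (S * v * x)) (vn_mul h1K (vn_mul (vn_mul D.SM D.vM) hxM))
      have a2 : (1 - K) * (S * v * x) * (Si * f0 * K) = (1 - K) * (S * v * x * Si) * K := by
        have a3 : x * (Si * f0) = x * Si := by
          rw [D.Sif0, ← mul_assoc, hxf]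
        calc (1 - K) * (S * v * x) * (Si * f0 * K)
            = (1 - K) * (S * v * (x * (Si * f0))) * K := by noncomm_ring
          _ = (1 - K) * (S * v * (x * Si)) * K := by rw [a3]
          _ = _ := by noncomm_ring
      rw [a2] at a1
      linarith
    have n3 : n2 τ ((1 - P) * y2) ≤ 4 * (β⁻¹ ^ 2 * eps ^ 2) := by
      have a1 := hPn y2 hy2M hf3y
      have a2 : (1 - K) * y2 = (1 - K) * (S * v * x) * W := by rw [hy2]; noncomm_ring
      rw [a2] at a1
      have a3 : n2 τ ((1 - K) * (S * v * x) * W) ≤ β⁻¹ ^ 2 * eps ^ 2 := by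
        have hb2 : 0 < β ^ 2 := by positivity
        rw [inv_pow, ← div_eq_inv_mul, le_div_iff₀ hb2]
        exact n2'
      linarith
    rw [e3]
    have m1 := hτ.n2_mul_left (vn_mul (vn_mul h1X hvs) D.SiM) (vn_mul (vn_sub (vn_one M) hP) hy2M)
    have m2 := hτ.n2_nonneg (vn_mul (vn_sub (vn_one M) hP) hy2M)
    calc n2 τ (((1 - X) * star v * Si) * ((1 - P) * y2))
        ≤ ‖(1 - X) * star v * Si‖ ^ 2 * n2 τ ((1 - P) * y2) := m1
      _ ≤ ‖Si‖ ^ 2 * (4 * (β⁻¹ ^ 2 * eps ^ 2)) := by gcongr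
      _ = t2 := by rw [ht2]; ring
  have key0 : n2 τ ((1 - X) * W) ≤ t2 := by
    have := key f0 h0
    rwa [mul_assoc, hfW] at this
  have ht2n : 0 ≤ t2 := by positivity
  have hWtr2 : tr τ W ≤ tr τ (K0 * f0) + 9 * eta ^ 2 + t2 := by
    have h1 := n2_sub_proj hτ hX hW hXp hWp
    have h2 := n2_sub_proj hτ hW hX hWp hXp
    have h3 := hτ.n2_nonneg (vn_mul (vn_sub (vn_one M) hW) hX)
    have h4 : n2 τ (X - W) = n2 τ (W - X) := by
      unfold n2; congr 1
      rw [← neg_sub W X, star_neg, neg_mul_neg]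
    rw [h2, h1] at h4
    linarith
  refine ⟨W, hW, hWp, hfW, hWtr, hWtr2, ?_, ?_⟩
  · intro Λ hΛ g hg gi hgi V hV hgs hggi hgig hgn hgin hVp hVW hVtr
    -- `Xg`
    obtain ⟨Xg, hXg, hXgp, hXg0, hXgtr⟩ := range_proj hτ (vn_mul hg hX) hX hXp
      (by rw [mul_assoc, hXp.isIdempotentElem.eq])
    have h1Xg : (1 : H →L[ℂ] H) - Xg ∈ M := vn_sub (vn_one M) hXg
    have gen : ∀ x ∈ M, n2 τ ((1 - X) * x * W) ≤ t2 → x * g = g * x →
        n2 τ ((1 - Xg) * x * V) ≤ 4 * Λ ^ 4 * t2 := by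
      intro x hx hxn hxg
      have a1 := gauge_proj hτ D.faith hW hWp hg hgi hgs hgig hV hVp hVW hVtr hΛ hgin
        (vn_mul h1Xg hx)
      have a2 : (1 - Xg) * x * (g * W) = ((1 - Xg) * g) * ((1 - X) * x * W) := by
        have a3 : (1 - Xg) * x * (g * W) = (1 - Xg) * (x * g) * W := by noncomm_ring
        rw [a3, hxg]
        have a4 : (1 - Xg) * (g * x) * W =
            ((1 - Xg) * (g * X)) * (x * W) + ((1 - Xg) * g) * ((1 - X) * x * W) := by
          noncomm_ring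
        rw [a4, hXg0, zero_mul, zero_add]
      rw [a2] at a1
      have a5 := hτ.n2_mul_left (vn_mul h1Xg hg) (vn_mul (vn_mul h1X hx) hW)
      have a6 : ‖(1 - Xg) * g‖ ≤ Λ := by
        calc ‖(1 - Xg) * g‖ ≤ ‖(1 : H →L[ℂ] H) - Xg‖ * ‖g‖ := norm_mul_le _ _
          _ ≤ 1 * Λ := by gcongr; exact norm_proj_le hXgp.one_sub
          _ = Λ := one_mul _
      have a7 := hτ.n2_nonneg (vn_mul (vn_mul h1X hx) hW)
      calc n2 τ ((1 - Xg) * x * V)
          ≤ 4 * Λ ^ 2 * n2 τ (((1 - Xg) * g) * ((1 - X) * x * W)) := a1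
        _ ≤ 4 * Λ ^ 2 * (‖(1 - Xg) * g‖ ^ 2 * n2 τ ((1 - X) * x * W)) := by gcongr
        _ ≤ 4 * Λ ^ 2 * (Λ ^ 2 * t2) := by gcongr
        _ = _ := by ring
    have g1 : n2 τ ((1 - Xg) * V) ≤ 4 * Λ ^ 4 * t2 := by
      have := gen 1 (vn_one M) (by rw [mul_one]; exact key0) (by rw [one_mul, mul_one])
      rwa [mul_one] at this
    have g2 : n2 τ (Xg - V) ≤ 18 * eta ^ 2 + 8 * Λ ^ 4 * t2 := by
      have := n2_sub_proj hτ hXg hV hXgp hVp
      rw [this, hVtr]
      linarith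
    intro x hx hxg
    have g3 := gen x hx.1 (key x hx) hxg
    have e1 : (1 - V) * x * V = (1 - Xg) * x * V + (Xg - V) * (x * V) := by noncomm_ring
    have g4 := hτ.n2_add (vn_mul (vn_mul h1Xg hx.1) hV)
      (vn_mul (vn_sub hXg hV) (vn_mul hx.1 hV))
    have g5 := hτ.n2_mul_right (vn_mul hx.1 hV) (vn_sub hXg hV)
    have g6 : ‖x * V‖ ^ 2 ≤ 1 := by
      have : ‖x * V‖ ≤ 1 := by
        calc ‖x * V‖ ≤ ‖x‖ * ‖V‖ := norm_mul_le _ _
          _ ≤ 1 * 1 := by
            gcongr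
            · exact hx.2.2.2.1
            · exact norm_proj_le hVp
          _ = 1 := one_mul _
      have h0 := norm_nonneg (x * V)
      nlinarith
    have g7 := hτ.n2_nonneg (vn_sub hXg hV)
    have g8 : n2 τ ((Xg - V) * (x * V)) ≤ n2 τ (Xg - V) := by nlinarith
    rw [e1]
    have ht : ‖Si‖ ^ 2 * β⁻¹ ^ 2 * eps ^ 2 = t2 / 4 := by rw [ht2]; ring
    rw [ht]
    linarith
  · intro Y hY hYp hYW hYtr
    have hp0 : IsStarProjection (K0 * f0) := by
      refine ⟨?_, ?_⟩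
      · show K0 * f0 * (K0 * f0) = K0 * f0
        calc K0 * f0 * (K0 * f0) = K0 * (f0 * K0) * f0 := by noncomm_ring
          _ = K0 * (K0 * f0) * f0 := by rw [D.K0f0]
          _ = (K0 * K0) * (f0 * f0) := by noncomm_ring
          _ = _ := by rw [D.K0p.isIdempotentElem.eq, D.f0p.isIdempotentElem.eq]
      · show star (K0 * f0) = K0 * f0
        rw [star_mul, D.f0p.isSelfAdjoint.star_eq, D.K0p.isSelfAdjoint.star_eq, D.K0f0]
    set p0 : H →L[ℂ] H := K0 * f0 with hp0d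
    have hp0M : p0 ∈ M := vn_mul D.K0M D.f0M
    have h1Y : (1 : H →L[ℂ] H) - Y ∈ M := vn_sub (vn_one M) hY
    have hfp : f0 * K0 * p0 = p0 := by
      rw [← D.K0f0, ← hp0d]; exact hp0.isIdempotentElem.eq
    have e1 : (1 - Y) * p0 = ((1 - Y) * f0) * ((K0 - K) * p0) + ((1 - Y) * (f0 * K)) * p0 := by
      have : (1 - Y) * p0 = (1 - Y) * (f0 * K0 * p0) := by rw [hfp]
      rw [this]; noncomm_ring
    have e2 : (1 - Y) * (f0 * K) = (1 - Y) * S * ((1 - W) * (Si * f0 * K)) := by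
      have a1 : f0 * K = S * (Si * f0 * K) := by
        calc f0 * K = (S * Si) * f0 * K := by rw [D.SSi, one_mul]
          _ = _ := by noncomm_ring
      have a2 : (1 - Y) * (S * W) = 0 := by rw [sub_mul, one_mul, hYW, sub_self]
      conv_lhs => rw [a1]
      have a3 : (1 - Y) * (S * (Si * f0 * K)) =
          ((1 - Y) * (S * W)) * (Si * f0 * K) + (1 - Y) * S * ((1 - W) * (Si * f0 * K)) := by
        noncomm_ring
      rw [a3, a2, zero_mul, zero_add]
    have n1 : ‖(1 - Y) * (f0 * K)‖ ≤ ‖S‖ * β := by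
      rw [e2]
      calc ‖(1 - Y) * S * ((1 - W) * (Si * f0 * K))‖
          ≤ ‖(1 - Y) * S‖ * ‖(1 - W) * (Si * f0 * K)‖ := norm_mul_le _ _
        _ ≤ (‖(1 : H →L[ℂ] H) - Y‖ * ‖S‖) * β := by gcongr; exact norm_mul_le _ _
        _ ≤ (1 * ‖S‖) * β := by gcongr; exact norm_proj_le hYp.one_sub
        _ = _ := by ring
    have n2a : n2 τ (((1 - Y) * f0) * ((K0 - K) * p0)) ≤ eta ^ 2 := by
      have a1 := hτ.n2_mul_left (vn_mul h1Y D.f0M) (vn_mul (vn_sub D.K0M D.KM) hp0M)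
      have a2 := hτ.n2_mul_right hp0M (vn_sub D.K0M D.KM)
      have a3 : n2 τ (K0 - K) = n2 τ (K - K0) := by
        unfold n2; congr 1
        rw [← neg_sub K K0, star_neg, neg_mul_neg]
      have a4 : ‖(1 - Y) * f0‖ ≤ 1 := by
        calc ‖(1 - Y) * f0‖ ≤ ‖(1 : H →L[ℂ] H) - Y‖ * ‖f0‖ := norm_mul_le _ _
          _ ≤ 1 * 1 := by
            gcongr
            · exact norm_proj_le hYp.one_sub
            · exact norm_proj_le D.f0p
          _ = 1 := one_mul _
      have a5 : ‖p0‖ ≤ 1 := norm_proj_le hp0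
      have a6 := hτ.n2_nonneg (vn_mul (vn_sub D.K0M D.KM) hp0M)
      have a7 := hτ.n2_nonneg (vn_sub D.K0M D.KM)
      have a8 : ‖(1 - Y) * f0‖ ^ 2 ≤ 1 := by nlinarith [norm_nonneg ((1 - Y) * f0)]
      have a9 : ‖p0‖ ^ 2 ≤ 1 := by nlinarith [norm_nonneg p0]
      have a10 := D.near
      rw [a3] at a2 a7
      nlinarith
    have n2b : n2 τ (((1 - Y) * (f0 * K)) * p0) ≤ ‖S‖ ^ 2 * β ^ 2 := by
      have a1 := hτ.n2_mul_left (vn_mul h1Y (vn_mul D.f0M D.KM)) hp0M
      have a2 : n2 τ p0 ≤ 1 := by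
        have := hτ.n2_le hp0M
        have h5 : ‖p0‖ ≤ 1 := norm_proj_le hp0
        nlinarith [norm_nonneg p0]
      have a3 : ‖(1 - Y) * (f0 * K)‖ ^ 2 ≤ (‖S‖ * β) ^ 2 := by gcongr
      have a4 := hτ.n2_nonneg hp0M
      have a5 : 0 ≤ ‖(1 - Y) * (f0 * K)‖ ^ 2 := by positivity
      have a6 : (‖S‖ * β) ^ 2 = ‖S‖ ^ 2 * β ^ 2 := by ring
      nlinarith
    have n3 : n2 τ ((1 - Y) * p0) ≤ 2 * eta ^ 2 + 2 * (‖S‖ ^ 2 * β ^ 2) := by
      rw [e1]
      have := hτ.n2_add (vn_mul (vn_mul h1Y D.f0M) (vn_mul (vn_sub D.K0M D.KM) hp0M))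
        (vn_mul (vn_mul h1Y (vn_mul D.f0M D.KM)) hp0M)
      linarith
    have n4 := n2_sub_proj hτ hY hp0M hYp hp0
    rw [n4, hYtr]
    linarith

end main

end Pool.Agent.H762R2.ISP
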